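import Pool.Agent.Work.MP_84e666_co.N.Hard

section
/-! Polynomial-time parsing of bit strings (copied from the parser of `MP_fae5c8_lc`). -/

namespace Pool.Agent.Work.MP_84e666_co.Mem

open Pool.Agent.Lib.Poly N487b59b3

variable {α : Type} [Enc α]

/-- The length of the first delimited block. -/
def blen (w : List Bool) : ℕ :=
  ((List.range w.length).filter fun i => (List.range (i + 1)).all fun j => w.getD (2 * j) false).length

def blk (w : List Bool) : List Bool := (List.range (blen w)).map fun i => w.getD (2 * i + 1) false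

def rest (w : List Bool) : List Bool := w.drop (2 * blen w + 1)

@[fun_prop] theorem pt_blen {f : α → List Bool} (hf : PT f) : PT fun x => blen (f x) := by
  unfold blen; fun_prop

@[fun_prop] theorem pt_blk {f : α → List Bool} (hf : PT f) : PT fun x => blk (f x) := by
  unfold blk; fun_prop

@[fun_prop] theorem pt_rest {f : α → List Bool} (hf : PT f) : PT fun x => rest (f x) := by
  unfold rest; fun_prop

theorem delimit_even (a r : List Bool) (j : ℕ) (hj : j ≤ a.length) :
    (delimit a ++ r).getD (2 * j) false = decide (j < a.length) := by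
  induction a generalizing j with
  | nil => obtain rfl : j = 0 := by simpa using hj
           rfl
  | cons b a ih =>
    rcases j with _ | j
    · rfl
    · have := ih j (by simpa using hj)
      simpa [delimit, mul_add] using this

theorem delimit_odd (a r : List Bool) (j : ℕ) (hj : j < a.length) :
    (delimit a ++ r).getD (2 * j + 1) false = a[j] := by
  induction a generalizing j with
  | nil => simp at hj
  | cons b a ih =>
    rcases j with _ | j
    · rfl
    · have := ih j (by simpa using hj)
      simpa [delimit, mul_add] using this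

theorem blen_delimit (a r : List Bool) : blen (delimit a ++ r) = a.length := by
  have key : ∀ i, ((List.range (i + 1)).all fun j => (delimit a ++ r).getD (2 * j) false) =
      decide (i < a.length) := by
    intro i
    rw [Bool.eq_iff_iff, List.all_eq_true, decide_eq_true_iff]
    constructor
    · intro h
      by_contra hi
      have := h a.length (List.mem_range.2 (by omega))
      rw [delimit_even _ _ _ le_rfl] at this
      simp at this
    · intro h j hj
      have := List.mem_range.1 hj
      rw [delimit_even _ _ _ (by omega)]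
      simp only [decide_eq_true_iff]; omega
  have k2 : ∀ n m, ((List.range n).filter fun i => decide (i < m)).length = min n m := by
    intro n m
    induction n with
    | zero => simp
    | succ n ih =>
      rw [List.range_succ, List.filter_append, List.length_append, ih]
      by_cases h : n < m <;> simp [h] <;> omega
  simp only [blen, key, k2, List.length_append, length_delimit]
  omega

theorem blk_delimit (a r : List Bool) : blk (delimit a ++ r) = a := by
  rw [blk, blen_delimit]
  refine List.ext_getElem (by simp) fun i h1 h2 => ?_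
  rw [List.getElem_map, List.getElem_range, delimit_odd _ _ _ h2]

theorem rest_delimit (a r : List Bool) : rest (delimit a ++ r) = r := by
  rw [rest, blen_delimit, ← length_delimit, List.drop_left]

def bstep (n : ℕ) (s : List (List Bool) × List Bool) : List (List Bool) × List Bool :=
  if s.2 = [] then s else (s.1 ++ [(blk s.2).take n], rest s.2)

def blocks (w : List Bool) : List (List Bool) :=
  ((List.range w.length).foldl (fun s _ => bstep w.length s) ([], w)).1

theorem sz_bools (l : List Bool) : sz l = 3 * l.length := by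
  induction l with
  | nil => rfl
  | cons b l ih => simp [ih]; omega

@[fun_prop] theorem pt_blocks {f : α → List Bool} (hf : PT f) : PT fun x => blocks (f x) := by
  have : PT fun w : List Bool => blocks w := by
    unfold blocks
    refine PT.fst (PT.foldl (f := fun (w : List Bool) s (_ : ℕ) => bstep w.length s)
      (by unfold bstep; fun_prop) (by fun_prop) (by fun_prop) (fun n => 4 * n + 2) (by fun_prop)
      fun a c x => ?_)
    obtain ⟨c1, c2⟩ := c
    unfold bstep
    split_ifs
    · omega
    · have h1 := PT.sz_drop_le c2 (2 * blen c2 + 1)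
      have h2 := List.length_take_le a.length (blk c2)
      simp only [sz_pair, sz_append, sz_cons, sz_nil, rest, sz_bools] at h1 ⊢
      omega
  exact this.comp hf

theorem blocks_aux (n : ℕ) (L : List ℕ) (l acc : List (List Bool)) (h : l.length ≤ L.length)
    (hn : ∀ a ∈ l, a.length ≤ n) :
    L.foldl (fun s _ => bstep n s) (acc, (l.map delimit).flatten) = (acc ++ l, []) := by
  induction L generalizing l acc with
  | nil => obtain rfl : l = [] := by simpa using h
           simp
  | cons i L ih =>
    rcases l with _ | ⟨a, l⟩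
    · exact ih [] acc (by simp) hn
    · have : delimit a ++ (l.map delimit).flatten ≠ [] := by cases a <;> simp [delimit]
      rw [List.foldl_cons, List.map_cons, List.flatten_cons, bstep, if_neg this, blk_delimit,
        rest_delimit, List.take_of_length_le (hn a List.mem_cons_self),
        ih l _ (by simpa using h) fun b hb => hn b (List.mem_cons_of_mem _ hb)]
      simp

theorem blocks_enc (l : List α) : blocks (enc l) = l.map enc := by
  have e : enc l = ((l.map enc).map delimit).flatten := rfl
  rw [blocks]
  conv_lhs => enter [1, 2, 2]; rw [e]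
  rw [blocks_aux]
  · simp
  · rw [List.length_map, List.length_range]; exact length_le_sz l
  · intro a ha
    obtain ⟨b, hb, rfl⟩ := List.mem_map.1 ha
    exact sz_le_of_mem hb

theorem ofBits_enc (n : Bin) : Bin.ofBits (enc n) = n := by rw [Bin.ofBits, bv_enc]

end Pool.Agent.Work.MP_84e666_co.Mem
end

section
/-! Hall's chain formula for the refinement order. -/

namespace Pool.Agent.Work.MP_84e666_co.Mem

open Finset

variable {n : ℕ}

open Classical in
/-- The strict chains `y > z₁ > … > z_k = x`, as the lists `[z₁, …, z_k]`. -/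
noncomputable def Ch (x : n.Partition) : ℕ → n.Partition → Finset (List n.Partition)
  | 0, y => if x = y then {[]} else ∅
  | k + 1, y => (univ.filter fun z : n.Partition => Refines z.parts y.parts ∧ z ≠ y).biUnion
      fun z => (Ch x k z).image (z :: ·)

theorem mem_Ch_zero {x y : n.Partition} {C : List n.Partition} :
    C ∈ Ch x 0 y ↔ x = y ∧ C = [] := by
  rw [Ch]
  split_ifs with h <;> simp [h]

theorem mem_Ch_succ {x y : n.Partition} {k : ℕ} {C : List n.Partition} :
    C ∈ Ch x (k + 1) y ↔ ∃ z C', Refines z.parts y.parts ∧ z ≠ y ∧ C' ∈ Ch x k z ∧ C = z :: C' := by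
  simp only [Ch, mem_biUnion, mem_filter, mem_univ, true_and, mem_image]
  constructor
  · rintro ⟨z, ⟨h1, h2⟩, C', h3, rfl⟩
    exact ⟨z, C', h1, h2, h3, rfl⟩
  · rintro ⟨z, C', h1, h2, h3, rfl⟩
    exact ⟨z, ⟨h1, h2⟩, C', h3, rfl⟩

theorem card_lt {z y : n.Partition} (h : Refines z.parts y.parts) (hne : z ≠ y) :
    y.parts.card < z.parts.card := by
  obtain ⟨h1, h2⟩ := h.card_le fun a ha => y.parts_pos ha
  by_contra c
  exact hne (Nat.Partition.ext (h2 (by omega)))

theorem Ch_spec {x : n.Partition} {k : ℕ} : ∀ {y : n.Partition} {C : List n.Partition},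
    C ∈ Ch x k y → C.length = k ∧ Refines x.parts y.parts ∧ y.parts.card + k ≤ x.parts.card ∧
      ∀ z ∈ C, z.parts.card ≤ x.parts.card := by
  induction k with
  | zero =>
    intro y C h
    obtain ⟨rfl, rfl⟩ := mem_Ch_zero.1 h
    exact ⟨rfl, Refines.refl _, le_rfl, by simp⟩
  | succ k ih =>
    intro y C h
    obtain ⟨z, C', h1, h2, h3, rfl⟩ := mem_Ch_succ.1 h
    obtain ⟨a1, a2, a3, a4⟩ := ih h3
    have := card_lt h1 h2
    refine ⟨by simp [a1], a2.trans h1, by omega, fun u hu => ?_⟩
    rcases List.mem_cons.1 hu with rfl | hu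
    · omega
    · exact a4 u hu

open Classical in
theorem card_Ch_succ (x y : n.Partition) (k : ℕ) : (Ch x (k + 1) y).card =
    ∑ z ∈ univ.filter fun z : n.Partition => Refines z.parts y.parts ∧ z ≠ y, (Ch x k z).card := by
  rw [Ch, card_biUnion]
  · exact sum_congr rfl fun z _ => card_image_of_injective _ List.cons_injective
  · intro a _ b _ hab
    simp only [Function.onFun, disjoint_left, mem_image]
    rintro _ ⟨c, -, rfl⟩ ⟨d, -, h⟩
    exact hab (List.cons.inj h).1.symm

theorem hall {μ : n.Partition → n.Partition → ℤ} (hμ : IsMobius μ) (x : n.Partition) (K : ℕ) :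
    ∀ y : n.Partition, Refines x.parts y.parts → x.parts.card < y.parts.card + K →
      μ x y = ∑ k ∈ range K, (-1) ^ k * ((Ch x k y).card : ℤ) := by
  classical
  induction K with
  | zero =>
    intro y h1 h2
    have := (h1.card_le fun a ha => y.parts_pos ha).1
    omega
  | succ K ih =>
    intro y h1 h2
    have e : ∑ k ∈ range K, (-1) ^ (k + 1) * ((Ch x (k + 1) y).card : ℤ) =
        -∑ z ∈ univ.filter (fun z : n.Partition => Refines x.parts z.parts ∧
          Refines z.parts y.parts ∧ z ≠ y), μ x z := by
      simp only [card_Ch_succ, Nat.cast_sum, mul_sum, pow_succ, mul_neg, mul_one, neg_mul,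
        sum_neg_distrib]
      rw [sum_comm, sum_filter, sum_filter]
      congr 1
      refine sum_congr rfl fun z _ => ?_
      by_cases c1 : Refines z.parts y.parts ∧ z ≠ y
      · by_cases c2 : Refines x.parts z.parts
        · have := card_lt c1.1 c1.2
          rw [if_pos c1, if_pos ⟨c2, c1⟩, ih z c2 (by omega)]
        · rw [if_pos c1, if_neg fun c => c2 c.1]
          refine sum_eq_zero fun k _ => ?_
          rw [card_eq_zero.2 (eq_empty_of_forall_notMem fun C hC => c2 (Ch_spec hC).2.1)]
          simp
      · rw [if_neg c1, if_neg fun c => c1 c.2]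
    rw [sum_range_succ', e]
    by_cases c : x = y
    · subst c
      rw [hμ.1, sum_eq_zero]
      · simp [Ch]
      · intro z hz
        obtain ⟨a1, a2, a3⟩ := (mem_filter.1 hz).2
        have := card_lt a2 a3
        have := (a1.card_le fun a ha => z.parts_pos ha).1
        omega
    · rw [hμ.2 x y h1 c]
      simp [Ch, c]

open Classical in
/-- All chains from `y` down to `x` whose length has parity `b`. -/
noncomputable def Par (x y : n.Partition) (b : ℕ) : Finset (List n.Partition) :=
  ((range (x.parts.card + 1)).filter fun k => k % 2 = b).biUnion fun k => Ch x k y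

theorem mem_Par {x y : n.Partition} {b : ℕ} {C : List n.Partition} :
    C ∈ Par x y b ↔ C ∈ Ch x C.length y ∧ C.length % 2 = b := by
  simp only [Par, mem_biUnion, mem_filter, mem_range]
  constructor
  · rintro ⟨k, ⟨-, h1⟩, h2⟩
    rw [(Ch_spec h2).1]
    exact ⟨h2, h1⟩
  · rintro ⟨h1, h2⟩
    have := (Ch_spec h1).2.2.1
    exact ⟨_, ⟨by omega, h2⟩, h1⟩

theorem hall' {μ : n.Partition → n.Partition → ℤ} (hμ : IsMobius μ) {x y : n.Partition}
    (h : Refines x.parts y.parts) : μ x y = ((Par x y 0).card : ℤ) - (Par x y 1).card := by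
  classical
  have e : ∀ b, ((Par x y b).card : ℤ) =
      ∑ k ∈ range (x.parts.card + 1), if k % 2 = b then ((Ch x k y).card : ℤ) else 0 := fun b => by
    rw [Par, card_biUnion, Nat.cast_sum, sum_filter]
    intro a _ c _ hac
    simp only [Function.onFun, disjoint_left]
    intro C h1 h2
    exact hac ((Ch_spec h1).1.symm.trans (Ch_spec h2).1)
  rw [hall hμ x (x.parts.card + 1) y h (by omega), e, e, ← sum_sub_distrib]
  refine sum_congr rfl fun k _ => ?_
  rcases Nat.even_or_odd k with c | c
  · rw [c.neg_one_pow, if_pos (Nat.even_iff.1 c), if_neg (by have := Nat.even_iff.1 c; omega)]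
    simp
  · rw [c.neg_one_pow, if_neg (by have := Nat.odd_iff.1 c; omega), if_pos (Nat.odd_iff.1 c)]
    simp

end Pool.Agent.Work.MP_84e666_co.Mem
end

section
/-! A polynomial-time verifier for chains of partitions written in binary. -/

namespace Pool.Agent.Work.MP_84e666_co.Mem

open Pool.Agent.Lib.Poly
open Pool.Agent.Work.MP_32aa60_lc (pt_of_tm2 sz_list_le)

/-- The multiset of values. -/
def vals (l : List Bin) : Multiset ℕ := (l.map Bin.val : List ℕ)

def permB (a b : List Bin) : Bool :=
  (a ++ b).all fun c => decide (a.countP (fun d => decide (d = c)) = b.countP fun d => decide (d = c))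

def sumB (l : List Bin) : Bin := ⟨(l.map Bin.val).sum⟩

def srtB (l : List Bin) : Bool := (l.zip l.tail).all fun p => !(p.2.lt p.1)

def posB (l : List Bin) : Bool := l.all fun a => (Bin.mk 0).lt a

/-- `z` is a sorted list of positive numbers that strictly refines `y` through the blocks `W`. -/
def step (y z : List Bin) (W : List (List Bin)) : Bool :=
  permB W.flatten z && permB (W.map sumB) y && !permB z y && srtB z && posB z

def chk (lam : List Bin) : List Bin → List (List Bin × List (List Bin)) → Bool
  | y, [] => permB lam y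
  | y, d :: D => step y d.1 d.2 && chk lam d.1 D

theorem val_inj : Function.Injective Bin.val := fun ⟨_⟩ ⟨_⟩ h => congrArg Bin.mk h

theorem permB_iff (a b : List Bin) : permB a b = true ↔ vals a = vals b := by
  rw [vals, vals, Multiset.coe_eq_coe, List.map_perm_map_iff val_inj, List.perm_iff_count]
  have e : ∀ (l : List Bin) (c : Bin), l.countP (fun d => decide (d = c)) = l.count c :=
    fun l c => by rw [List.count]; rfl
  simp only [permB, List.all_eq_true, decide_eq_true_eq, e]
  refine ⟨fun h c => ?_, fun h c _ => h c⟩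
  by_cases hc : c ∈ a ++ b
  · exact h c hc
  · rw [List.mem_append, not_or] at hc
    rw [List.count_eq_zero_of_not_mem hc.1, List.count_eq_zero_of_not_mem hc.2]

theorem srtB_iff (l : List Bin) : srtB l = true ↔ (l.map Bin.val).Pairwise (· ≤ ·) := by
  rw [← List.isChain_iff_pairwise]
  induction l with
  | nil => simp [srtB]
  | cons a l ih =>
    cases l with
    | nil => simp [srtB]
    | cons b l =>
      simp only [List.map_cons, List.isChain_cons_cons] at ih ⊢
      rw [← ih]
      simp [srtB, Bin.lt]

theorem posB_iff (l : List Bin) : posB l = true ↔ ∀ a ∈ vals l, 0 < a := by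
  simp [posB, vals, Bin.lt]

variable {n : ℕ}

/-- The sorted list of the parts. -/
def srt (z : n.Partition) : List Bin := (z.parts.sort (· ≤ ·)).map Bin.mk

theorem map_srt (z : n.Partition) : (srt z).map Bin.val = z.parts.sort (· ≤ ·) := by
  rw [srt, List.map_map]
  exact List.map_id' _

theorem vals_srt (z : n.Partition) : vals (srt z) = z.parts := by
  rw [vals, map_srt, Multiset.sort_eq]

theorem srt_inj : Function.Injective (srt (n := n)) := fun a b h =>
  Nat.Partition.ext (by rw [← vals_srt, h, vals_srt])

theorem eq_srt {l : List Bin} {z : n.Partition} (h1 : srtB l = true) (h2 : vals l = z.parts) :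
    l = srt z := by
  refine List.map_injective_iff.2 val_inj ?_
  rw [map_srt]
  refine List.Perm.eq_of_pairwise (le := (· ≤ ·)) (fun a b _ _ => le_antisymm)
    ((srtB_iff l).1 h1) (Multiset.pairwise_sort _ _) ?_
  rw [← Multiset.coe_eq_coe, Multiset.sort_eq]
  exact h2

theorem vals_flatten (W : List (List Bin)) :
    vals W.flatten = ((W.map vals : List _) : Multiset (Multiset ℕ)).sum := by
  induction W with
  | nil => rfl
  | cons a W ih =>
    rw [List.flatten_cons, List.map_cons, ← Multiset.cons_coe, Multiset.sum_cons, ← ih]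
    simp [vals]

theorem vals_sumB (W : List (List Bin)) :
    vals (W.map sumB) = ((W.map vals : List _) : Multiset (Multiset ℕ)).map Multiset.sum := by
  simp [vals, sumB, Function.comp_def]

theorem sz_sumB (l : List Bin) : sz (sumB l) ≤ sz l := by
  induction l with
  | nil => exact Bin.sz_le (k := 0) (by simp)
  | cons a l ih =>
    have := Bin.sz_add_le a (sumB l)
    have e : sumB (a :: l) = a.add (sumB l) := by simp [sumB, Bin.add]
    rw [e, sz_cons]
    omega

theorem sz_le_of {l : List Bin} {s m : ℕ} (hm : sz (Bin.mk m) ≤ s) (h1 : (vals l).sum ≤ m)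
    (h2 : (vals l).card ≤ s) : sz l ≤ s * (2 * s + 1) := by
  refine (sz_list_le l s fun a ha => ?_).trans (Nat.mul_le_mul_right _ (by simpa [vals] using h2))
  refine le_trans (Bin.sz_mono (m := a.val) (le_trans ?_ h1)) hm
  exact Multiset.single_le_sum (fun _ _ => Nat.zero_le _) _ (by
    simpa [vals] using ⟨a, ha, rfl⟩)

theorem step_sound {y' z' : List Bin} {W : List (List Bin)} {y : n.Partition}
    (hy : vals y' = y.parts) (h : step y' z' W = true) :
    ∃ z : n.Partition, z' = srt z ∧ Refines z.parts y.parts ∧ z ≠ y := by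
  simp only [step, Bool.and_eq_true, Bool.not_eq_true', ← Bool.not_eq_true, permB_iff,
    posB_iff] at h
  obtain ⟨⟨⟨⟨h1, h2⟩, h3⟩, h4⟩, h5⟩ := h
  have hr : Refines (vals z') y.parts :=
    ⟨(W.map vals : List _), by rw [← vals_flatten, h1], by rw [← vals_sumB, h2, hy]⟩
  refine ⟨⟨vals z', fun {a} ha => h5 a ha, hr.sum_eq.trans y.parts_sum⟩, eq_srt h4 rfl, hr, ?_⟩
  intro c
  exact h3 ((congrArg Nat.Partition.parts c).trans hy.symm)

theorem step_complete {y' : List Bin} {y z : n.Partition} {s : ℕ} (hy : vals y' = y.parts)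
    (h1 : Refines z.parts y.parts) (h2 : z ≠ y) (hn : sz (Bin.mk n) ≤ s) (hz : z.parts.card ≤ s) :
    ∃ W, step y' (srt z) W = true ∧ sz W ≤ s * (2 * (s * (2 * s + 1)) + 1) := by
  have hc := card_lt h1 h2
  obtain ⟨B, b1, b2⟩ := h1
  let W : List (List Bin) := B.toList.map fun a => a.toList.map Bin.mk
  have e : ∀ a : Multiset ℕ, vals (a.toList.map Bin.mk) = a := fun a => by
    rw [vals, List.map_map]
    exact (congrArg _ (List.map_id' _)).trans a.coe_toList
  have hW : ((W.map vals : List _) : Multiset (Multiset ℕ)) = B := by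
    simp only [W, List.map_map, Function.comp_def, e, List.map_id', Multiset.coe_toList]
  refine ⟨W, ?_, ?_⟩
  · simp only [step, Bool.and_eq_true, Bool.not_eq_true', ← Bool.not_eq_true, permB_iff,
      posB_iff, srtB_iff, vals_flatten, vals_sumB, hW, vals_srt, map_srt, hy]
    exact ⟨⟨⟨⟨b1, b2⟩, fun c => h2 (Nat.Partition.ext c)⟩, Multiset.pairwise_sort _ _⟩,
      fun a ha => z.parts_pos ha⟩
  · refine (sz_list_le W (s * (2 * s + 1)) fun a ha => ?_).trans (Nat.mul_le_mul_right _ ?_)
    · obtain ⟨c, hc, rfl⟩ := List.mem_map.1 ha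
      have hle : c ≤ z.parts := b1 ▸ Multiset.single_le_sum (fun _ _ => Multiset.zero_le _) _
        (Multiset.mem_toList.1 hc)
      refine sz_le_of hn ?_ ?_ <;> rw [e]
      · obtain ⟨u, hu⟩ := Multiset.le_iff_exists_add.1 hle
        have := z.parts_sum
        rw [hu, Multiset.sum_add] at this
        omega
      · exact (Multiset.card_le_card hle).trans hz
    · have : B.card = y.parts.card := by rw [← b2, Multiset.card_map]
      simp only [W, List.length_map, Multiset.length_toList]
      omega

theorem chk_sound {lam : List Bin} {x : n.Partition} (hx : vals lam = x.parts)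
    (D : List (List Bin × List (List Bin))) : ∀ {y' : List Bin} {y : n.Partition},
    vals y' = y.parts → chk lam y' D = true →
      ∃ C, C ∈ Ch x D.length y ∧ D.map Prod.fst = C.map srt := by
  induction D with
  | nil =>
    intro y' y hy h
    rw [chk, permB_iff, hx, hy] at h
    exact ⟨[], mem_Ch_zero.2 ⟨Nat.Partition.ext h, rfl⟩, rfl⟩
  | cons d D ih =>
    intro y' y hy h
    rw [chk, Bool.and_eq_true] at h
    obtain ⟨z, a1, a2, a3⟩ := step_sound hy h.1
    obtain ⟨C, a4, a5⟩ := ih (y := z) (by rw [a1, vals_srt]) h.2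
    exact ⟨z :: C, mem_Ch_succ.2 ⟨z, C, a2, a3, a4, rfl⟩, by simp [a1, a5]⟩

theorem chk_complete {lam : List Bin} {x : n.Partition} (hx : vals lam = x.parts) {s : ℕ}
    (hn : sz (Bin.mk n) ≤ s) (hs : x.parts.card ≤ s) (k : ℕ) :
    ∀ {y' : List Bin} {y : n.Partition} {C : List n.Partition},
    vals y' = y.parts → C ∈ Ch x k y → ∃ D, chk lam y' D = true ∧ D.map Prod.fst = C.map srt ∧
      ∀ d ∈ D, sz d.2 ≤ s * (2 * (s * (2 * s + 1)) + 1) := by
  induction k with
  | zero =>
    intro y' y C hy h
    obtain ⟨rfl, rfl⟩ := mem_Ch_zero.1 h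
    exact ⟨[], by rw [chk, permB_iff, hx, hy], rfl, by simp⟩
  | succ k ih =>
    intro y' y C hy h
    obtain ⟨z, C', h1, h2, h3, rfl⟩ := mem_Ch_succ.1 h
    have := (Ch_spec h3).2.2.1
    obtain ⟨W, a1, a2⟩ := step_complete hy h1 h2 hn (s := s) (by omega)
    obtain ⟨D, a3, a4, a5⟩ := ih (vals_srt z) h3
    refine ⟨(srt z, W) :: D, by rw [chk, a1, a3]; rfl, by simp [a4], fun d hd => ?_⟩
    rcases List.mem_cons.1 hd with rfl | hd
    · exact a2
    · exact a5 d hd

section pt

variable {α : Type} [Enc α]

@[fun_prop] theorem pt_permB {f g : α → List Bin} (hf : PT f) (hg : PT g) :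
    PT fun x => permB (f x) (g x) := by
  unfold permB; fun_prop

@[fun_prop] theorem pt_sumB {f : α → List Bin} (hf : PT f) : PT fun x => sumB (f x) := by
  refine (PT.foldl (f := fun _ (acc : Bin) (k : Bin) => acc.add k) (init := fun _ => ⟨0⟩)
    (by fun_prop) (by fun_prop) hf (fun n => n + 1) (by fun_prop) fun a c k => ?_).of_eq fun x => ?_
  · have := Bin.sz_add_le c k
    omega
  · have : ∀ (l : List Bin) (c : ℕ), l.foldl (fun (acc : Bin) k => acc.add k) ⟨c⟩ =
        ⟨c + (l.map Bin.val).sum⟩ := fun l => by
      induction l with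
      | nil => simp
      | cons k l ih =>
        intro c
        rw [List.foldl_cons, Bin.add, ih, List.map_cons, List.sum_cons, add_assoc]
    rw [this, zero_add, sumB]

@[fun_prop] theorem pt_step {f g : α → List Bin} {h : α → List (List Bin)} (hf : PT f) (hg : PT g)
    (hh : PT h) : PT fun x => step (f x) (g x) (h x) := by
  unfold step srtB posB; fun_prop

theorem chk_fold (lam : List Bin) (D : List (List Bin × List (List Bin))) :
    ∀ (y : List Bin) (b : Bool), (b && chk lam y D) =
      ((D.foldl (fun (s : List Bin × Bool) d => (d.1, s.2 && step s.1 d.1 d.2)) (y, b)).2 &&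
        permB lam (D.foldl (fun (s : List Bin × Bool) d =>
          (d.1, s.2 && step s.1 d.1 d.2)) (y, b)).1) := by
  induction D with
  | nil => intro y b; rfl
  | cons d D ih => intro y b; rw [chk, List.foldl_cons, ← ih, Bool.and_assoc]

@[fun_prop] theorem pt_chk {f g : α → List Bin} {h : α → List (List Bin × List (List Bin))}
    (hf : PT f) (hg : PT g) (hh : PT h) : PT fun x => chk (f x) (g x) (h x) := by
  have key : PT fun x => (h x).foldl
      (fun (s : List Bin × Bool) d => (d.1, s.2 && step s.1 d.1 d.2)) (g x, true) := by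
    refine PT.foldl (f := fun _ (s : List Bin × Bool) (d : List Bin × List (List Bin)) =>
      (d.1, s.2 && step s.1 d.1 d.2)) (by fun_prop) (by fun_prop) hh (fun n => 2 * n + 2)
      (by fun_prop) fun a c d => ?_
    have := sz_fst_le d
    simp only [sz_pair, sz_bool]
    omega
  refine ((key.snd).and (pt_permB hf key.fst)).of_eq fun x => ?_
  rw [← chk_fold, Bool.true_and]

end pt

end Pool.Agent.Work.MP_84e666_co.Mem
end

section
/-! The Möbius function is a difference of two sharp-NP functions of the binary code. -/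

namespace Pool.Agent.Work.MP_84e666_co.Mem

open Finset Pool.Agent.Lib.Poly N487b59b3
open Pool.Agent.Work.MP_32aa60_lc (pt_of_tm2 sz_list_le)

def decL (w : List Bool) : List Bin := (blocks w).map Bin.ofBits

def decD (w : List Bool) : List (List Bin × List (List Bin)) :=
  (blocks w).map fun b => (decL (blk b), (blocks (rest b)).map decL)

theorem decL_enc (l : List Bin) : decL (enc l) = l := by
  rw [decL, blocks_enc, List.map_map]
  exact (List.map_congr_left fun a _ => ofBits_enc a).trans (List.map_id' l)

theorem decD_enc (D : List (List Bin × List (List Bin))) : decD (enc D) = D := by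
  rw [decD, blocks_enc, List.map_map]
  refine (List.map_congr_left fun d _ => ?_).trans (List.map_id' D)
  obtain ⟨a, b⟩ := d
  simp only [Function.comp_def, enc_pair, blk_delimit, rest_delimit, decL_enc, blocks_enc,
    List.map_map, List.map_id']

/-- The code of `a`, padded to length `P`. -/
def padTo {β : Type} [Enc β] (P : ℕ) (a : β) : List Bool := enc (a, P - (2 * sz a + 1))

theorem length_padTo {β : Type} [Enc β] {P : ℕ} {a : β} (h : 2 * sz a + 1 ≤ P) :
    (padTo P a).length = P := by
  have : (padTo P a).length = sz (a, P - (2 * sz a + 1)) := rfl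
  rw [this, sz_pair, sz_nat]
  omega

theorem blk_padTo {β : Type} [Enc β] (P : ℕ) (a : β) : blk (padTo P a) = enc a := by
  rw [padTo, enc_pair, blk_delimit]

theorem padTo_inj {β : Type} [Enc β] (P : ℕ) : Function.Injective (padTo (β := β) P) :=
  fun a b h => Enc.inj (by rw [← blk_padTo P, h, blk_padTo])

/-- The verifier: `w` is the code of a chain of parity `b`, and `v` proves it. -/
def ver (b : ℕ) (z : List Bool × List Bool × List Bool) : Bool :=
  chk (decL (blk z.1)) (decL (rest z.1)) (decD (blk z.2.2)) &&
    decide ((decD (blk z.2.2)).length % 2 = b) &&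
    decide (z.2.1 = padTo z.2.1.length ((decD (blk z.2.2)).map Prod.fst))

section pt

variable {α : Type} [Enc α]

@[fun_prop] theorem pt_decL {f : α → List Bool} (hf : PT f) : PT fun x => decL (f x) := by
  unfold decL; fun_prop

@[fun_prop] theorem pt_decD {f : α → List Bool} (hf : PT f) : PT fun x => decD (f x) := by
  unfold decD; fun_prop

@[fun_prop] theorem pt_padTo {β : Type} [Enc β] {f : α → ℕ} {g : α → β} (hf : PT f) (hg : PT g) :
    PT fun x => padTo (f x) (g x) := by
  unfold padTo; fun_prop

end pt

theorem pt_ver (b : ℕ) : PT (ver b) := by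
  have h : PT fun z : List Bool × List Bool × List Bool => decD (blk z.2.2) := by fun_prop
  have h1 : PT fun z : List Bool × List Bool × List Bool =>
      chk (decL (blk z.1)) (decL (rest z.1)) (decD (blk z.2.2)) :=
    pt_chk (by fun_prop) (by fun_prop) h
  have h2 : PT fun z : List Bool × List Bool × List Bool =>
      decide ((decD (blk z.2.2)).length % 2 = b) :=
    PT.deq (h.length.mod (PT.const 2)) (PT.const b)
  have h3 : PT fun z : List Bool × List Bool × List Bool => (decD (blk z.2.2)).map Prod.fst :=
    PT.map (f := fun _ (d : List Bin × List (List Bin)) => d.1) (by fun_prop) h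
  have h4 : PT fun z : List Bool × List Bool × List Bool =>
      padTo z.2.1.length ((decD (blk z.2.2)).map Prod.fst) := pt_padTo (by fun_prop) h3
  have h5 : PT fun z : List Bool × List Bool × List Bool =>
      decide (z.2.1 = padTo z.2.1.length ((decD (blk z.2.2)).map Prod.fst)) :=
    PT.deq (f := fun z : List Bool × List Bool × List Bool => z.2.1) (by fun_prop) h4
  exact ((h1.and h2).and h5).of_eq fun z => by rw [ver]

open Polynomial in
noncomputable def pA : Polynomial ℕ := X * (2 * X + 1)

open Polynomial in
noncomputable def pB : Polynomial ℕ := X * (2 * pA + 1)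

noncomputable def pW : Polynomial ℕ := 2 * pB + 1

open Polynomial in
noncomputable def pV : Polynomial ℕ := 2 * (X * (2 * (2 * pA + 1 + pB) + 1)) + 1

theorem exists_ofFn {Q : ℕ} {v : List Bool} (h : v.length = Q) :
    ∃ u : Fin Q → Bool, List.ofFn u = v := by
  subst h
  exact ⟨v.get, List.ofFn_get v⟩

theorem cnt_eq {n : ℕ} {l r : n.Partition} {lam rho : List Bin} (hl : vals lam = l.parts)
    (hr : vals rho = r.parts) (b : ℕ) {s P Q : ℕ} (h0 : sz lam ≤ s) (hP : P = pW.eval s)
    (hQ : Q = pV.eval s) : (Finset.univ.filter fun w : Fin P → Bool => ∃ v : Fin Q → Bool,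
      ver b (enc (lam, rho), List.ofFn w, List.ofFn v) = true).card = (Par l r b).card := by
  classical
  subst hP hQ
  set x : List Bool := enc (lam, rho) with hx
  have hn : sz (Bin.mk n) ≤ s := by
    have e : sumB lam = Bin.mk n := by
      rw [sumB, ← l.parts_sum, ← hl, vals, Multiset.sum_coe]
    rw [← e]
    exact (sz_sumB lam).trans h0
  have hc : l.parts.card ≤ s := by
    have := length_le_sz lam
    rw [← hl, vals, Multiset.coe_card, List.length_map]
    omega
  have x1 : decL (blk x) = lam := by rw [hx, enc_pair, blk_delimit, decL_enc]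
  have x2 : decL (rest x) = rho := by rw [hx, enc_pair, rest_delimit, decL_enc]
  have eW : pW.eval s = 2 * (s * (2 * (s * (2 * s + 1)) + 1)) + 1 := by simp [pW, pB, pA]
  have eV : pV.eval s = 2 * (s * (2 * (2 * (s * (2 * s + 1)) + 1 +
      s * (2 * (s * (2 * s + 1)) + 1)) + 1)) + 1 := by simp [pV, pB, pA]
  rw [← card_image_of_injective _ List.ofFn_injective, ← card_image_of_injective (Par l r b)
    ((padTo_inj (pW.eval s)).comp (List.map_injective_iff.2 srt_inj))]
  congr 1
  ext w
  simp only [mem_image, mem_filter, mem_univ, true_and, mem_Par, ver, Bool.and_eq_true,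
    decide_eq_true_eq, x1, x2, Function.comp_def]
  constructor
  · rintro ⟨w, ⟨v, ⟨h1, h2⟩, h3⟩, rfl⟩
    obtain ⟨C, a1, a2⟩ := chk_sound hl _ hr h1
    have := (Ch_spec a1).1
    refine ⟨C, ⟨this ▸ a1, this ▸ h2⟩, ?_⟩
    rw [h3, a2, List.length_ofFn]
  · rintro ⟨C, ⟨h1, h2⟩, rfl⟩
    obtain ⟨D, a1, a2, a3⟩ := chk_complete hl hn hc _ hr h1
    obtain ⟨-, -, b1, b2⟩ := Ch_spec h1
    have hlen : D.length = C.length := by simpa using congrArg List.length a2
    have hz : ∀ a ∈ C.map srt, sz a ≤ s * (2 * s + 1) := fun a ha => by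
      obtain ⟨z, hz, rfl⟩ := List.mem_map.1 ha
      exact sz_le_of hn (by rw [vals_srt, z.parts_sum]) (by rw [vals_srt]; exact (b2 z hz).trans hc)
    have s1 : 2 * sz (C.map srt) + 1 ≤ pW.eval s := by
      have := (sz_list_le _ _ hz).trans (Nat.mul_le_mul_right _
        (show (C.map srt).length ≤ s by rw [List.length_map]; omega))
      omega
    have s2 : 2 * sz D + 1 ≤ pV.eval s := by
      have := (sz_list_le D (2 * (s * (2 * s + 1)) + 1 + s * (2 * (s * (2 * s + 1)) + 1))
        fun d hd => by
          have c1 := a3 d hd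
          have c2 := hz d.1 (a2 ▸ List.mem_map_of_mem hd)
          obtain ⟨d1, d2⟩ := d
          rw [sz_pair]
          dsimp only at c1 c2
          omega).trans (Nat.mul_le_mul_right _ (show D.length ≤ s by omega))
      omega
    obtain ⟨w, hw⟩ := exists_ofFn (length_padTo s1)
    obtain ⟨v, hv⟩ := exists_ofFn (length_padTo s2)
    refine ⟨w, ⟨v, ?_⟩, hw⟩
    rw [hv, blk_padTo, decD_enc, List.length_ofFn, hw, a2, hlen]
    exact ⟨⟨a1, h2⟩, rfl⟩

theorem code_eq (lam rho : List ℕ) :
    bitEncode (lam, rho) = enc (lam.map Bin.mk, rho.map Bin.mk) := by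
  have e : ∀ l : List ℕ, bitEncode l = enc (l.map Bin.mk) := fun l => by
    change ((l.map bitEncode).map delimit).flatten =
      (((l.map Bin.mk).map enc).map delimit).flatten
    simp only [List.map_map]
    rfl
  rw [enc_pair, ← e, ← e]
  rfl

theorem sharp_comp {lam rho : List Bool → List Bin} (h1 : PT lam) (h2 : PT rho) (b : ℕ) :
    ∃ f : List Bool → ℕ, IsSharpNP f ∧ ∀ x (n : ℕ) (l r : n.Partition), vals (lam x) = l.parts →
      vals (rho x) = r.parts → f x = (Par l r b).card := by
  obtain ⟨t, ht, hs⟩ := h1.size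
  obtain ⟨T, hT⟩ : IsPoly fun n => t (3 * n) := ht.comp (by fun_prop)
  have hc : PT fun z : List Bool × List Bool × List Bool =>
      (enc (lam z.1, rho z.1), z.2.1, z.2.2) := by
    have a1 : PT fun z : List Bool × List Bool × List Bool => lam z.1 := h1.comp (by fun_prop)
    have a2 : PT fun z : List Bool × List Bool × List Bool => rho z.1 := h2.comp (by fun_prop)
    fun_prop
  refine ⟨_, ⟨pW.comp T, pV.comp T, fun z => ver b (enc (lam z.1, rho z.1), z.2.1, z.2.2),
    ((pt_ver b).comp hc).tm2 _ _ _ (fun a => a) (fun _ => rfl) fun _ => rfl, fun _ => rfl⟩,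
    fun x n l r hl hr => ?_⟩
  refine cnt_eq hl hr b (s := T.eval x.length) ?_ Polynomial.eval_comp Polynomial.eval_comp
  have := hs x
  rw [sz_bools x] at this
  exact this.trans_eq (hT x.length)

theorem vals_mk (a : List ℕ) : vals (a.map Bin.mk) = a := by
  rw [vals, List.map_map]
  exact congrArg _ (List.map_id' _)

/-- Reading a list written in unary. -/
def unStep (s : ℕ × List ℕ) (b : Bool) : ℕ × List ℕ :=
  bif b then (s.1 + 1, s.2) else (0, s.2 ++ [s.1])

theorem un_unary (l : List ℕ) : ∀ acc, (unary l).foldl unStep (0, acc) = (0, acc ++ l) := by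
  have e : ∀ (k : ℕ) (acc : List ℕ) (c : ℕ),
      (List.replicate k true).foldl unStep (c, acc) = (c + k, acc) := fun k => by
    induction k with
    | zero => simp
    | succ k ih =>
      intro acc c
      rw [List.replicate_succ, List.foldl_cons, unStep, cond_true, ih]
      congr 1
      omega
  induction l with
  | nil => simp [unary]
  | cons k l ih =>
    intro acc
    have : unary (k :: l) = List.replicate k true ++ false :: unary l := by simp [unary]
    rw [this, List.foldl_append, e, List.foldl_cons, unStep, cond_false, ih]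
    simp

theorem pt_of_unary {lam : List Bool → List ℕ} (h1 : PT fun x => unary (lam x)) : PT lam := by
  have h2 : PT fun x => (unary (lam x)).foldl unStep (0, []) := by
    refine PT.foldl (f := fun _ s b => unStep s b) (by unfold unStep; fun_prop) (by fun_prop)
      h1 (fun _ => 2) (by fun_prop) fun a c b => ?_
    obtain ⟨c1, c2⟩ := c
    cases b <;> simp [unStep] <;> omega
  exact h2.snd.of_eq fun x => by rw [un_unary]; simp

theorem tfae (h : List Bool → ℤ) : List.TFAE [
    ∃ (c f g : List Bool → ℕ), N68a2faeb.IsPolyTime c ∧ IsSharpNP f ∧ IsSharpNP g ∧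
      ∀ x, 0 < c x ∧ c x * h x = (f x : ℤ) - g x,
    ∃ (lam rho : List Bool → List ℕ) (c : List Bool → ℕ),
      N68a2faeb.IsPolyTime (fun x => (unary (lam x), unary (rho x))) ∧ N68a2faeb.IsPolyTime c ∧
      ∀ x, 0 < c x ∧ ∃ (n : ℕ) (l r : n.Partition), l.parts = lam x ∧ r.parts = rho x ∧
        Refines l.parts r.parts ∧ ∀ μ : n.Partition → n.Partition → ℤ, IsMobius μ →
          μ l r = c x * h x,
    ∃ (lam rho : List Bool → List ℕ) (c : List Bool → ℕ),
      N68a2faeb.IsPolyTime (fun x => (lam x, rho x)) ∧ N68a2faeb.IsPolyTime c ∧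
      ∀ x, 0 < c x ∧ ∃ (n : ℕ) (l r : n.Partition), l.parts = lam x ∧ r.parts = rho x ∧
        Refines l.parts r.parts ∧ ∀ μ : n.Partition → n.Partition → ℤ, IsMobius μ →
          μ l r = c x * h x] := by
  tfae_have 1 → 2 := by
    rintro ⟨c, f, g, hc, hf, hg, H⟩
    obtain ⟨lam, rho, c', h1, h2, h3, h4⟩ := NP.gap_hard hf hg
    have a1 : PT fun x => unary (lam x) := pt_of_tm2 h1 _ (fun a => a) (fun _ => rfl) fun _ => rfl
    have a2 : PT fun x => unary (rho x) := pt_of_tm2 h2 _ (fun a => a) (fun _ => rfl) fun _ => rfl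
    have a3 : PT fun x => Bin.mk (c' x) := pt_of_tm2 h3 _ (fun a => a) (fun _ => rfl) fun _ => rfl
    have a4 : PT fun x => Bin.mk (c x) := pt_of_tm2 hc _ (fun a => a) (fun _ => rfl) fun _ => rfl
    have a5 : PT fun x => (unary (lam x), unary (rho x)) := by fun_prop
    refine ⟨lam, rho, fun x => c' x * c x,
      a5.tm2 _ _ _ (fun a => a) (fun _ => rfl) fun _ => rfl,
      (PT.bmul a3 a4).tm2 _ _ _ (fun a => a) (fun _ => rfl) fun _ => rfl, fun x => ?_⟩
    obtain ⟨b0, n, l, r, b1, b2, b3, b4⟩ := h4 x
    refine ⟨Nat.mul_pos b0 (H x).1, n, l, r, b1, b2, b3, fun μ hμ => ?_⟩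
    rw [b4 μ hμ, ← (H x).2, Nat.cast_mul, mul_assoc]
  tfae_have 2 → 3 := by
    rintro ⟨lam, rho, c, h1, h2, H⟩
    have a0 : PT fun x => (unary (lam x), unary (rho x)) :=
      pt_of_tm2 h1 _ (fun a => a) (fun _ => rfl) fun _ => rfl
    have a1 := pt_of_unary a0.fst
    have a2 := pt_of_unary a0.snd
    have a3 : PT fun x => ((lam x).map Bin.mk, (rho x).map Bin.mk) := by fun_prop
    exact ⟨lam, rho, c, a3.tm2 _ _ _ (fun a => a) (fun _ => rfl) fun x => (code_eq _ _).symm, h2, H⟩
  tfae_have 3 → 1 := by
    rintro ⟨lam, rho, c, h1, h2, H⟩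
    have a0 : PT fun x => ((lam x).map Bin.mk, (rho x).map Bin.mk) :=
      pt_of_tm2 h1 _ (fun a => a) (fun _ => rfl) fun x => code_eq _ _
    obtain ⟨f, hf, hf'⟩ := sharp_comp a0.fst a0.snd 0
    obtain ⟨g, hg, hg'⟩ := sharp_comp a0.fst a0.snd 1
    refine ⟨c, f, g, h2, hf, hg, fun x => ?_⟩
    obtain ⟨b0, n, l, r, b1, b2, b3, b4⟩ := H x
    obtain ⟨μ, hμ⟩ := exists_mobius n
    refine ⟨b0, ?_⟩
    rw [← b4 μ hμ, hall' hμ b3, hf' x n l r (by rw [vals_mk, b1]) (by rw [vals_mk, b2]),
      hg' x n l r (by rw [vals_mk, b1]) (by rw [vals_mk, b2])]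
  tfae_finish

end Pool.Agent.Work.MP_84e666_co.Mem
end
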